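import Mathlib

set_option autoImplicit false

namespace Pool.Agent.Results.MP_fbd0a7_an.Infinite

open Filter Topology MeasureTheory Real Set
open scoped ENNReal Nat

/-- The completed graph `{(x,y) : I(f;x) ≤ y ≤ S(f;x)}`. -/
def cgraph (f : ℝ → ℝ) : Set (ℝ × ℝ) := {A | liminf f (𝓝 A.1) ≤ A.2 ∧ A.2 ≤ limsup f (𝓝 A.1)}

/-- The metric `ρ_α`. -/
noncomputable def rho (α : ℝ) (A B : ℝ × ℝ) : ℝ≥0∞ :=
  ENNReal.ofReal (max (α⁻¹ * |A.1 - B.1|) |A.2 - B.2|)

/-- The Hausdorff distance `r(α; f, g)`. -/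
noncomputable def hd (α : ℝ) (f g : ℝ → ℝ) : ℝ≥0∞ :=
  max (⨆ A ∈ cgraph f, ⨅ B ∈ cgraph g, rho α A B) (⨆ A ∈ cgraph g, ⨅ B ∈ cgraph f, rho α A B)

/-- Gauss-Weierstrass operator. -/
noncomputable def W (n : ℕ) (f : ℝ → ℝ) (x : ℝ) : ℝ := √(n / π) * ∫ t, f t * exp (-n * (t - x) ^ 2)

/-- Abel-Poisson operator. -/
noncomputable def P (ρ : ℝ) (f : ℝ → ℝ) (x : ℝ) : ℝ :=
  1 / (2 * π) * ∫ t in -π..π, f (x - t) * ((1 - ρ ^ 2) / (1 - 2 * ρ * cos t + ρ ^ 2))

/-- De la Vallee-Poussin operator. -/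
noncomputable def V (n : ℕ) (f : ℝ → ℝ) (x : ℝ) : ℝ :=
  (n ! : ℝ) ^ 2 / (2 * π * (2 * n)!) * ∫ t in -π..π, f (x - t) * (2 * cos (t / 2)) ^ (2 * n)

lemma intg {g K : ℝ → ℝ} {M : ℝ} (hg : AEStronglyMeasurable g volume) (hM : ∀ t, |g t| ≤ M)
    (hK : Integrable K) (x : ℝ) : Integrable fun s => g (x - s) * K s :=
  hK.bdd_mul (hg.comp_measurePreserving (Measure.measurePreserving_sub_left volume x))
    (.of_forall fun _ => hM _)

lemma side {g K ψ : ℝ → ℝ} {M x x₀ κ δ η ε C : ℝ} (hg : AEStronglyMeasurable g volume)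
    (hM : ∀ t, |g t| ≤ M) (hK : Integrable K) (hψ : Integrable ψ) (h0 : ∀ s, 0 ≤ K s)
    (h1 : ∀ s, 0 ≤ ε * ψ s) (h2 : ∀ s, η ≤ |s| → K s ≤ ε * ψ s) (h3 : ∀ s, |s| ≤ (C + 1) * δ → κ ≤ K s)
    (h4 : ∀ t, |t - x₀| < 2 * η → 0 ≤ g t) (hδ : 0 ≤ δ) (h5 : |x - x₀| ≤ C * δ) (h6 : (C + 1) * δ < η) :
    κ * (∫ t in x₀ - δ..x₀ + δ, g t) - M * (ε * ∫ s, ψ s) ≤ ∫ s, g (x - s) * K s := by
  have hM0 := (abs_nonneg _).trans (hM 0)
  have hi := intg hg hM ((integrable_indicator_iff measurableSet_Ioc).2 (integrableOn_const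
    (s := Ioc (x - (x₀ + δ)) (x - (x₀ - δ))) (C := κ) (by simp))) x
  have e : ∫ s, g (x - s) * (Ioc (x - (x₀ + δ)) (x - (x₀ - δ))).indicator (fun _ => κ) s =
      κ * ∫ t in x₀ - δ..x₀ + δ, g t := by
    simp_rw [← indicator_mul_right _ (fun s => g (x - s))]
    rw [integral_indicator measurableSet_Ioc, ← intervalIntegral.integral_of_le (by linarith),
      intervalIntegral.integral_mul_const, intervalIntegral.integral_comp_sub_left, mul_comm]
    simp
  rw [← e, ← integral_const_mul, ← integral_const_mul, ← integral_sub hi ((hψ.const_mul _).const_mul _)]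
  refine integral_mono (hi.sub ((hψ.const_mul _).const_mul _)) (intg hg hM hK x) fun s => ?_
  have := mul_nonneg hM0 (h1 s)
  rw [abs_le] at h5
  by_cases hs : η ≤ |s|
  · rw [indicator_of_notMem fun h => hs.not_gt (abs_lt.2 ⟨by linarith [h.1], by linarith [h.2]⟩)]
    nlinarith [h2 s hs, (abs_le.1 (hM (x - s))).1, h0 s]
  · have h7 := abs_lt.1 (not_le.1 hs)
    have h8 := h4 (x - s) (abs_lt.2 ⟨by linarith, by linarith⟩)
    have : (Ioc (x - (x₀ + δ)) (x - (x₀ - δ))).indicator (fun _ => κ) s ≤ K s :=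
      indicator_apply_le' (fun h => h3 s (abs_le.2 ⟨by linarith [h.1], by linarith [h.2]⟩)) fun _ => h0 s
    nlinarith [mul_le_mul_of_nonneg_left this h8]

lemma main {ι : Type} {l : Filter ι} [l.NeBot] {f ψ : ℝ → ℝ} {M α : ℝ} {K T : ι → ℝ → ℝ} {δ : ι → ℝ}
    (hα : 0 < α) (hf : AEStronglyMeasurable f volume) (hM : ∀ t, |f t| ≤ M) (hψ : Integrable ψ)
    (hψ0 : ∀ s, 0 ≤ ψ s) (hT : ∀ j x, T j x = ∫ s, f (x - s) * K j s) (hδ : Tendsto δ l (𝓝[>] 0))
    (h1 : ∀ᶠ j in l, Integrable (K j) ∧ (∀ s, 0 ≤ K j s) ∧ ∫ s, K j s = 1)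
    (h2 : ∀ η > 0, ∃ ε : ι → ℝ, Tendsto ε l (𝓝 0) ∧ ∀ᶠ j in l, 0 ≤ ε j ∧ ∀ s, η ≤ |s| → K j s ≤ ε j * ψ s)
    (h3 : ∀ C > 0, ∃ κ > 0, ∀ᶠ j in l, ∀ s, |s| ≤ C * δ j → κ / δ j ≤ K j s)
    (h : limsup (fun j => ENNReal.ofReal (α / δ j) * hd α f (T j)) l < ⊤) : Continuous f := by
  obtain ⟨c, hc⟩ : ∃ c : ℝ, 0 < c ∧ ∀ᶠ j in l, hd α f (T j) < ENNReal.ofReal (c * δ j) := by
    obtain ⟨c, -, hc, -⟩ := ENNReal.lt_iff_exists_real_btwn.1 h
    have c0 := ENNReal.ofReal_pos.1 (zero_le.trans_lt hc)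
    refine ⟨c / α, by positivity, ?_⟩
    filter_upwards [eventually_lt_of_limsup_lt hc, hδ.eventually self_mem_nhdsWithin] with j h1 h2
    have h2 : 0 < δ j := h2
    rw [mul_comm, ← ENNReal.lt_div_iff_mul_lt (by simp [hα, h2]) (by simp), ← ENNReal.ofReal_div_of_pos (by positivity)] at h1
    exact h1.trans_eq (by congr 1; field_simp)
  have hb : ∀ {g : ℝ → ℝ}, (∀ t, |g t| ≤ M) → ∀ x, IsBoundedUnder (· ≤ ·) (𝓝 x) g ∧
      IsBoundedUnder (· ≥ ·) (𝓝 x) g := fun hM x =>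
    ⟨isBoundedUnder_of ⟨M, fun t => (abs_le.1 (hM t)).2⟩, isBoundedUnder_of ⟨-M, fun t => (abs_le.1 (hM t)).1⟩⟩
  refine continuous_iff_continuousAt.2 fun x₀ => ?_
  set a := liminf f (𝓝 x₀) with ha
  set b := limsup f (𝓝 x₀) with hb'
  have hab : a ≤ b := liminf_le_limsup (hb hM x₀).1 (hb hM x₀).2
  suffices b ≤ a by
    have := tendsto_of_liminf_eq_limsup ha.symm (le_antisymm this hab) (hb hM x₀).1 (hb hM x₀).2
    rwa [ContinuousAt, tendsto_nhds_unique (tendsto_pure_nhds f x₀) (this.mono_left (pure_le_nhds _))]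
  obtain ⟨κ, hκ, h3⟩ := h3 (α * c + 1 + 1) (by have := hc.1; positivity)
  refine le_of_forall_pos_le_add fun e he => ?_
  have he' : 0 < e * κ := by positivity
  obtain ⟨η, hη, h4⟩ := Metric.eventually_nhds_iff.1
    ((eventually_lt_of_lt_liminf (show a - e * κ < a by linarith) (hb hM x₀).2).and
      (eventually_lt_of_limsup_lt (show b < b + e * κ by linarith) (hb hM x₀).1))
  obtain ⟨ε, hε, h2⟩ := h2 (η / 2) (by positivity)
  have hδ0 := hδ.mono_right nhdsWithin_le_nhds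
  have key : ∀ᶠ j in l, 2 * κ * (b - a) ≤ 2 * (e * κ) + 2 * (c + 1) * δ j +
      2 * (|a| + |b| + e * κ + M) * (ε j * ∫ s, ψ s) := by
    filter_upwards [h1, h2, h3, hc.2, hδ.eventually self_mem_nhdsWithin,
      (hδ0.const_mul (α * c + 1 + 1)).eventually (gt_mem_nhds (show _ < η / 2 by simpa))]
      with j ⟨i1, i2, i3⟩ ⟨i4, i5⟩ i6 i7 i8 i9
    have i8 : 0 < δ j := i8
    have hTM : ∀ x, |T j x| ≤ M := fun x => by
      rw [hT]
      refine abs_integral_le_integral_abs.trans ((integral_mono (intg hf hM i1 x).abs (i1.const_mul M)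
        fun s => ?_).trans (by rw [integral_const_mul, i3, mul_one]))
      simp only [abs_mul, abs_of_nonneg (i2 s)]
      exact mul_le_mul_of_nonneg_right (hM _) (i2 s)
    have near : ∀ y, a ≤ y → y ≤ b → ∃ B ∈ cgraph (T j), |B.1 - x₀| < α * c * δ j ∧ |y - B.2| < c * δ j :=
      fun y y1 y2 => by
        have := (le_iSup₂_of_le (f := fun A (_ : A ∈ cgraph f) => ⨅ B ∈ cgraph (T j), rho α A B)
          (x₀, y) ⟨y1, y2⟩ le_rfl).trans_lt ((le_max_left _ _).trans_lt i7)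
        simp only [iInf_lt_iff, rho, ENNReal.ofReal_lt_ofReal_iff (mul_pos hc.1 i8), max_lt_iff] at this
        obtain ⟨B, k1, k2, k3⟩ := this
        exact ⟨B, k1, by rwa [abs_sub_comm, mul_assoc, ← inv_mul_lt_iff₀ hα], k3⟩
    obtain ⟨B, ⟨-, b1⟩, b2, b3⟩ := near b hab le_rfl
    obtain ⟨A, ⟨a1, -⟩, a2, a3⟩ := near a le_rfl hab
    obtain ⟨x, x1, x2⟩ := ((frequently_lt_of_lt_limsup (hb hTM B.1).2.isCoboundedUnder_le
      (show B.2 - δ j < _ by linarith)).and_eventually (Metric.ball_mem_nhds _ i8)).exists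
    obtain ⟨y, y1, y2⟩ := ((frequently_lt_of_liminf_lt (hb hTM A.1).1.isCoboundedUnder_ge
      (show _ < A.2 + δ j by linarith)).and_eventually (Metric.ball_mem_nhds _ i8)).exists
    rw [Real.dist_eq, abs_lt] at x2 y2
    rw [abs_lt] at a2 a3 b2 b3
    have s1 := side (g := fun t => b + e * κ - f t) (M := |a| + |b| + e * κ + M) (x := x) (x₀ := x₀)
      (aestronglyMeasurable_const.sub hf) (fun t => abs_le.2
        ⟨by linarith [abs_le.1 (hM t), abs_nonneg a, neg_abs_le b], by linarith [abs_le.1 (hM t), abs_nonneg a, le_abs_self b]⟩) i1 hψ i2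
      (fun s => mul_nonneg i4 (hψ0 s)) i5 i6 (fun t ht => sub_nonneg.2 (h4 (by rw [Real.dist_eq]; linarith)).2.le)
      i8.le (abs_le.2 ⟨by linarith, by linarith⟩) i9
    have s2 := side (g := fun t => f t - (a - e * κ)) (M := |a| + |b| + e * κ + M) (x := y) (x₀ := x₀)
      (hf.sub aestronglyMeasurable_const) (fun t => abs_le.2
        ⟨by linarith [abs_le.1 (hM t), abs_nonneg b, le_abs_self a], by linarith [abs_le.1 (hM t), abs_nonneg b, neg_abs_le a]⟩) i1 hψ i2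
      (fun s => mul_nonneg i4 (hψ0 s)) i5 i6 (fun t ht => sub_nonneg.2 (h4 (by rw [Real.dist_eq]; linarith)).1.le)
      i8.le (abs_le.2 ⟨by linarith, by linarith⟩) i9
    have hI : IntervalIntegrable f volume (x₀ - δ j) (x₀ + δ j) :=
      (Measure.integrableOn_of_bounded (M := M) (by simp) hf (.of_forall hM)).intervalIntegrable
    simp only [sub_mul (f _), sub_mul _ (f _)] at s1 s2
    rw [integral_sub (i1.const_mul _) (intg hf hM i1 _), integral_const_mul, i3, ← hT,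
      intervalIntegral.integral_sub intervalIntegrable_const hI] at s1
    rw [integral_sub (intg hf hM i1 _) (i1.const_mul _), integral_const_mul, i3, ← hT,
      intervalIntegral.integral_sub hI intervalIntegrable_const] at s2
    simp only [intervalIntegral.integral_const, smul_eq_mul] at s1 s2
    have s3 : κ / δ j * (2 * δ j * (b - a + 2 * (e * κ))) = 2 * κ * (b - a + 2 * (e * κ)) := by field_simp
    nlinarith [mul_pos hκ he']
  have := ge_of_tendsto (((hδ0.const_mul (2 * (c + 1))).const_add (2 * (e * κ))).add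
    ((hε.mul_const (∫ s, ψ s)).const_mul (2 * (|a| + |b| + e * κ + M)))) key
  nlinarith

lemma caseW {α M : ℝ} (hα : 0 < α) {f : ℝ → ℝ} (hf : AEStronglyMeasurable f volume) (hM : ∀ t, |f t| ≤ M)
    (h : limsup (fun n : ℕ => ENNReal.ofReal (α * √n) * hd α f (W n f)) atTop < ⊤) : Continuous f := by
  refine main (K := fun (n : ℕ) s => √(n / π) * exp (-n * s ^ 2)) (δ := fun n => (√n)⁻¹) hα hf hM
    (integrable_exp_neg_mul_sq (b := 1 / 2) (by norm_num)) (fun _ => (exp_pos _).le) (fun n x => ?_)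
    (tendsto_inv_atTop_nhdsGT_zero.comp (tendsto_sqrt_atTop.comp tendsto_natCast_atTop_atTop))
    ?_ (fun η hη => ?_) (fun C hC => ⟨exp (-C ^ 2) / √π, by positivity, ?_⟩) (by simpa using h)
  · rw [W, ← integral_sub_left_eq_self _ _ x, ← integral_const_mul]
    congr! 2 with s; ring_nf
  · filter_upwards [eventually_gt_atTop 0] with n hn
    have hn : (0 : ℝ) < n := by exact_mod_cast hn
    refine ⟨(integrable_exp_neg_mul_sq hn).const_mul _, fun _ => by positivity, ?_⟩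
    rw [integral_const_mul, integral_gaussian, ← sqrt_mul (by positivity), sqrt_eq_one]
    field_simp
  · refine ⟨fun n => n * exp (-(η ^ 2 / 2) * n), ?_, ?_⟩
    · simpa [Function.comp_def] using (tendsto_rpow_mul_exp_neg_mul_atTop_nhds_zero 1 (η ^ 2 / 2) (by positivity)).comp
        tendsto_natCast_atTop_atTop
    filter_upwards [eventually_ge_atTop 1] with n hn
    have hn : (1 : ℝ) ≤ n := by exact_mod_cast hn
    refine ⟨by positivity, fun s hs => ?_⟩
    have : η ^ 2 ≤ s ^ 2 := by rw [← sq_abs s]; gcongr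
    rw [mul_assoc, ← exp_add]
    gcongr
    · rw [sqrt_le_left (by positivity), div_le_iff₀ pi_pos]; nlinarith [pi_gt_three]
    · nlinarith
  · filter_upwards [eventually_gt_atTop 0] with n hn s hs
    have hn : (0 : ℝ) < n := by exact_mod_cast hn
    have : s ^ 2 ≤ C ^ 2 / n := by
      rw [← sq_abs s, ← sq_sqrt hn.le, ← div_pow]; gcongr; exact hs
    rw [sqrt_div hn.le, div_inv_eq_mul, div_mul_eq_mul_div, mul_comm, mul_div_right_comm]
    rw [le_div_iff₀ hn] at this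
    gcongr; linarith

lemma per {ι : Type} {l : Filter ι} [l.NeBot] {f : ℝ → ℝ} {M α : ℝ} {K T : ι → ℝ → ℝ} {δ : ι → ℝ}
    (hα : 0 < α) (hf : AEStronglyMeasurable f volume) (hM : ∀ t, |f t| ≤ M)
    (hT : ∀ j x, T j x = ∫ s in -π..π, f (x - s) * K j s) (hδ : Tendsto δ l (𝓝[>] 0))
    (h1 : ∀ᶠ j in l, Continuous (K j) ∧ (∀ s, 0 ≤ K j s) ∧ ∫ s in -π..π, K j s = 1)
    (h2 : ∀ η > 0, η ≤ π → ∃ ε : ι → ℝ, Tendsto ε l (𝓝 0) ∧ ∀ᶠ j in l, 0 ≤ ε j ∧
      ∀ s, η ≤ |s| → |s| ≤ π → K j s ≤ ε j)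
    (h3 : ∀ C > 0, ∃ κ > 0, ∀ᶠ j in l, ∀ s, |s| ≤ C * δ j → κ / δ j ≤ K j s)
    (h : limsup (fun j => ENNReal.ofReal (α / δ j) * hd α f (T j)) l < ⊤) : Continuous f := by
  have hp : -π ≤ π := by linarith [pi_pos]
  refine main (K := fun j => (Ioc (-π) π).indicator (K j)) (ψ := (Ioc (-π) π).indicator fun _ => 1) hα hf hM
    ((integrable_indicator_iff measurableSet_Ioc).2 (integrableOn_const (by simp)))
    (indicator_nonneg fun _ _ => zero_le_one) (fun j x => ?_) hδ (h1.mono fun j h => ⟨?_,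
      indicator_nonneg fun s _ => h.2.1 s, ?_⟩) (fun η hη => ?_) (fun C hC => ?_) h
  · simp_rw [← indicator_mul_right _ (fun s => f (x - s))]
    rw [hT, integral_indicator measurableSet_Ioc, intervalIntegral.integral_of_le hp]
  · exact (integrable_indicator_iff measurableSet_Ioc).2 h.1.integrableOn_Ioc
  · rw [integral_indicator measurableSet_Ioc, ← intervalIntegral.integral_of_le hp, h.2.2]
  · obtain ⟨ε, k1, k2⟩ := h2 (min η π) (lt_min hη pi_pos) (min_le_right _ _)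
    refine ⟨ε, k1, k2.mono fun j h => ⟨h.1, fun s hs => ?_⟩⟩
    by_cases h' : s ∈ Ioc (-π) π
    · simpa [h'] using h.2 s ((min_le_left _ _).trans hs) (abs_le.2 ⟨h'.1.le, h'.2⟩)
    · simp [h']
  · obtain ⟨κ, k1, k2⟩ := h3 C hC
    refine ⟨κ, k1, ?_⟩
    filter_upwards [k2, ((hδ.mono_right nhdsWithin_le_nhds).const_mul C).eventually
      (gt_mem_nhds (show _ < π by simpa using pi_pos))] with j h1 h2 s hs
    have := abs_lt.1 (hs.trans_lt h2)
    rw [indicator_of_mem (show s ∈ Ioc (-π) π from ⟨this.1, this.2.le⟩)]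
    exact h1 s hs

lemma caseP {α M : ℝ} (hα : 0 < α) {f : ℝ → ℝ} (hf : AEStronglyMeasurable f volume) (hM : ∀ t, |f t| ≤ M)
    (h : limsup (fun ρ : ℝ => ENNReal.ofReal (α / (1 - ρ)) * hd α f (P ρ f)) (𝓝[<] 1) < ⊤) :
    Continuous f := by
  have ev : ∀ᶠ ρ in 𝓝[<] (1 : ℝ), ρ ∈ Ioo (1 / 2 : ℝ) 1 := Ioo_mem_nhdsLT (by norm_num)
  have hD : ∀ ρ ∈ Ioo (1 / 2 : ℝ) 1, ∀ s, 0 < 1 - 2 * ρ * cos s + ρ ^ 2 := fun ρ h s => by
    nlinarith [h.1, h.2, cos_le_one s, mul_pos (sub_pos.2 h.2) (sub_pos.2 h.2)]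
  have hp := pi_pos
  refine per (K := fun ρ t => 1 / (2 * π) * ((1 - ρ ^ 2) / (1 - 2 * ρ * cos t + ρ ^ 2))) hα hf hM
    (fun ρ x => ?_) ?_ (ev.mono fun ρ h => ⟨?_, fun s => ?_, ?_⟩) (fun η h1 h2 => ?_)
    (fun C hC => ⟨1 / (2 * π) / (1 + C ^ 2), by positivity, ev.mono fun ρ h s hs => ?_⟩) h
  · rw [P, ← intervalIntegral.integral_const_mul]; congr! 2 with s; ring
  · exact tendsto_nhdsWithin_iff.2 ⟨((continuous_sub_left 1).tendsto' 1 0 (by simp)).mono_left
      nhdsWithin_le_nhds, ev.mono fun ρ h => sub_pos.2 h.2⟩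
  · exact continuous_const.mul (continuous_const.div (by fun_prop) fun s => (hD ρ h s).ne')
  · exact mul_nonneg (by positivity) (div_nonneg (by nlinarith [h.1, h.2]) (hD ρ h s).le)
  · have := (diffContOnCl_const (c := (1 : ℂ)) (𝕜 := ℂ)).circleAverage_poissonKernel_smul (c := 0) (R := 1)
      (w := ρ) (by simpa [abs_lt] using ⟨by linarith [h.1], h.2⟩)
    rw [circleAverage_eq_integral_add (-π), intervalIntegral.integral_comp_add_right
      (fun θ => (poissonKernel 0 ρ • fun _ => (1 : ℂ)) (circleMap 0 1 θ))] at this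
    simp only [Pi.smul_apply', Complex.real_smul, mul_one, intervalIntegral.integral_ofReal] at this
    rw [intervalIntegral.integral_const_mul, one_div]
    rw [zero_add, show 2 * π + -π = π by ring, ← Complex.ofReal_mul, Complex.ofReal_eq_one] at this
    refine Eq.trans ?_ this
    congr 2
    ext s
    simp only [poissonKernel, sub_zero, ← Complex.normSq_eq_norm_sq, Complex.normSq_apply, circleMap]
    simp [Complex.exp_ofReal_mul_I_re, Complex.exp_ofReal_mul_I_im]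
    congr 1 <;> nlinarith [sin_sq_add_cos_sq s]
  · have h3 : cos η < 1 := by simpa using cos_lt_cos_of_nonneg_of_le_pi le_rfl h2 h1
    refine ⟨fun ρ => 1 / (2 * π) * ((1 - ρ ^ 2) / (1 - cos η)), (Continuous.tendsto' (by fun_prop) 1 0
      (by simp)).mono_left nhdsWithin_le_nhds, ev.mono fun ρ h => ?_⟩
    have h4 : 0 ≤ 1 - ρ ^ 2 := by nlinarith [h.1, h.2]
    refine ⟨mul_nonneg (by positivity) (div_nonneg h4 (by linarith)), fun s k1 k2 => ?_⟩
    have := cos_le_cos_of_nonneg_of_le_pi h1.le k2 k1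
    rw [cos_abs] at this
    refine mul_le_mul_of_nonneg_left (div_le_div_of_nonneg_left h4 (by linarith) ?_) (by positivity)
    nlinarith [h.1, sq_nonneg (1 - ρ), cos_le_one s]
  · have h1 := sub_pos.2 h.2
    have h2 : s ^ 2 ≤ (C * (1 - ρ)) ^ 2 := by rw [← sq_abs s]; gcongr
    rw [div_div, div_eq_mul_one_div]
    refine mul_le_mul_of_nonneg_left ?_ (by positivity)
    rw [div_le_div_iff₀ (by positivity) (hD ρ h s)]
    have h3 := one_sub_sq_div_two_le_cos (x := s)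
    have h4 : 1 - 2 * ρ * cos s + ρ ^ 2 ≤ (1 + C ^ 2) * (1 - ρ) ^ 2 := by nlinarith [h.1, h.2, sq_nonneg s]
    nlinarith [mul_nonneg (show 0 ≤ ρ by linarith [h.1]) (show 0 ≤ (1 + C ^ 2) * (1 - ρ) ^ 2 by positivity)]

lemma cb (n : ℕ) : ∏ i ∈ Finset.range n, (2 * (i : ℝ) + 1) / (2 * i + 2) = (2 * n)! / (n ! ^ 2 * 4 ^ n) ∧
    (∏ i ∈ Finset.range n, (2 * (i : ℝ) + 1) / (2 * i + 2)) ^ 2 * (n + 1) ≤ 1 ∧
    1 ≤ (∏ i ∈ Finset.range n, (2 * (i : ℝ) + 1) / (2 * i + 2)) * (n + 1) := by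
  induction n with
  | zero => simp
  | succ n ih =>
    rw [Finset.prod_range_succ]
    refine ⟨?_, ?_, ?_⟩
    · rw [ih.1, mul_add, mul_one, Nat.factorial_succ, Nat.factorial_succ, Nat.factorial_succ]
      push_cast; field_simp; ring
    · refine le_trans ?_ ih.2.1
      rw [mul_pow, mul_assoc]
      gcongr
      rw [div_pow, div_mul_eq_mul_div, div_le_iff₀ (by positivity)]
      push_cast; nlinarith [n.cast_nonneg (α := ℝ), sq_nonneg (n : ℝ)]
    · refine ih.2.2.trans ?_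
      rw [mul_assoc]
      gcongr
      rw [div_mul_eq_mul_div, le_div_iff₀ (by positivity)]
      push_cast; nlinarith [n.cast_nonneg (α := ℝ)]

lemma caseV {α M : ℝ} (hα : 0 < α) {f : ℝ → ℝ} (hf : AEStronglyMeasurable f volume) (hM : ∀ t, |f t| ≤ M)
    (h : limsup (fun n : ℕ => ENNReal.ofReal (α * √n) * hd α f (V n f)) atTop < ⊤) : Continuous f := by
  have hp := pi_pos
  let q : ℕ → ℝ := fun n => ∏ i ∈ Finset.range n, (2 * (i : ℝ) + 1) / (2 * i + 2)
  have hq : ∀ n, 0 < q n := fun n => Finset.prod_pos fun _ _ => by positivity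
  refine per (K := fun (n : ℕ) t => (2 * π * q n)⁻¹ * cos (t / 2) ^ (2 * n)) (δ := fun n => (√n)⁻¹) hα hf hM
    (fun n x => ?_)
    (tendsto_inv_atTop_nhdsGT_zero.comp (tendsto_sqrt_atTop.comp tendsto_natCast_atTop_atTop))
    (.of_forall fun n => ⟨by fun_prop, fun s => ?_, ?_⟩) (fun η h1 h2 => ?_)
    (fun C hC => ⟨exp (-C ^ 2) / (2 * π), by positivity, ?_⟩) (by simpa using h)
  · rw [V, ← intervalIntegral.integral_const_mul]
    congr! 2 with s
    simp only [q, (cb n).1, mul_pow, pow_mul]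
    field_simp; norm_num; ring
  · have := hq n
    rw [pow_mul]; positivity
  · have := hq n
    rw [intervalIntegral.integral_const_mul, intervalIntegral.integral_comp_div
      (fun t => cos t ^ (2 * n)) two_ne_zero]
    have e := intervalIntegral.integral_comp_sub_right (a := 0) (b := π) (fun t => cos t ^ (2 * n)) (π / 2)
    simp only [cos_sub_pi_div_two, integral_sin_pow_even] at e
    rw [show -π / 2 = 0 - π / 2 by ring, show π / 2 = π - π / 2 by ring]
    rw [show π - π / 2 = π / 2 by ring] at e ⊢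
    rw [← e, smul_eq_mul]
    change _ * (2 * (π * q n)) = 1
    field_simp
  · have h3 : 0 ≤ cos (η / 2) := cos_nonneg_of_mem_Icc ⟨by linarith, by linarith⟩
    have h4 : cos (η / 2) < 1 := by
      simpa using cos_lt_cos_of_nonneg_of_le_pi (y := η / 2) le_rfl (by linarith) (by linarith)
    have h5 : cos (η / 2) ^ 2 < 1 := by nlinarith
    refine ⟨fun n => (n + 1) * (cos (η / 2) ^ 2) ^ n, ?_, .of_forall fun n => ⟨by positivity, fun s k1 k2 => ?_⟩⟩
    · simpa [add_mul] using (tendsto_self_mul_const_pow_of_lt_one (by positivity) h5).add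
        (tendsto_pow_atTop_nhds_zero_of_lt_one (by positivity) h5)
    have h6 := cos_le_cos_of_nonneg_of_le_pi (x := η / 2) (y := |s / 2|) (by linarith)
      (by rw [abs_div, abs_two]; linarith) (by rw [abs_div, abs_two]; linarith)
    have h7 : 0 ≤ cos |s / 2| := cos_nonneg_of_mem_Icc ⟨by linarith [abs_nonneg (s / 2)],
      by rw [abs_div, abs_two]; linarith⟩
    rw [cos_abs] at h6 h7
    have := hq n
    rw [pow_mul]
    refine mul_le_mul ?_ (by gcongr) (by positivity) (by positivity)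
    rw [inv_le_iff_one_le_mul₀ (by positivity)]
    nlinarith [(cb n).2.2, pi_gt_three]
  · filter_upwards [eventually_gt_atTop 0, tendsto_natCast_atTop_atTop.eventually_ge_atTop (C ^ 2)]
      with n hn hC s hs
    have hn : (0 : ℝ) < n := by exact_mod_cast hn
    have h1 : s ^ 2 ≤ C ^ 2 / n := by
      rw [← sq_abs s, ← sq_sqrt hn.le, ← div_pow]; gcongr; exact hs
    have h2 : s ^ 2 ≤ 1 := h1.trans ((div_le_one hn).2 hC)
    have h3 : exp (-(s ^ 2 / 4)) ≤ cos (s / 2) := by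
      rw [exp_neg, inv_le_iff_one_le_mul₀ (exp_pos _)]
      have h4 := one_sub_sq_div_two_le_cos (x := s / 2)
      nlinarith [mul_le_mul h4 (add_one_le_exp (s ^ 2 / 4)) (by positivity) (by nlinarith), sq_nonneg s]
    have h4 : exp (-C ^ 2) ≤ cos (s / 2) ^ (2 * n) := by
      refine le_trans ?_ (pow_le_pow_left₀ (exp_pos _).le h3 _)
      rw [← exp_nat_mul, exp_le_exp]
      rw [le_div_iff₀ hn] at h1
      push_cast; nlinarith [sq_nonneg C]
    have h5 : √n ≤ (q n)⁻¹ := by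
      rw [sqrt_le_left (inv_pos.2 (hq n)).le, inv_pow, le_inv_comm₀ hn (pow_pos (hq n) 2),
        ← one_div, le_div_iff₀ hn]
      nlinarith [(cb n).2.1, sq_nonneg (q n)]
    rw [div_inv_eq_mul, mul_inv, div_eq_mul_inv, mul_assoc, mul_comm]
    have := hq n
    gcongr

theorem result (α : ℝ) (hα : 0 < α) (f : ℝ → ℝ) (hf : AEStronglyMeasurable f volume)
    (hb : ∃ M, ∀ t, |f t| ≤ M) :
    (limsup (fun n : ℕ => ENNReal.ofReal (α * √n) * hd α f (W n f)) atTop < ⊤ → Continuous f) ∧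
    (limsup (fun ρ : ℝ => ENNReal.ofReal (α / (1 - ρ)) * hd α f (P ρ f)) (𝓝[<] 1) < ⊤ → Continuous f) ∧
    (limsup (fun n : ℕ => ENNReal.ofReal (α * √n) * hd α f (V n f)) atTop < ⊤ → Continuous f) :=
  let ⟨_, hM⟩ := hb
  ⟨caseW hα hf hM, caseP hα hf hM, caseV hα hf hM⟩

end Pool.Agent.Results.MP_fbd0a7_an.Infinite
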